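import Pool.Agent.Helper22.TL.Spec

/-!
# TL: basic facts on flags and automorphisms (for KORD, KREC, KGROW)
-/

set_option autoImplicit false

namespace TL.H59

open Set TL

variable {d : ℕ} {𝒯 : Set (Set (E d))}

theorem flg_ext {Φ Ψ : Flg 𝒯} (h : ∀ i, Φ.F i = Ψ.F i) : Φ = Ψ := by
  cases Φ with
  | mk F fc mono =>
    cases Ψ with
    | mk G gc mono' =>
      have : F = G := funext h
      subst this
      rfl

theorem el_inj {Φ Ψ : Flg 𝒯} {i j : Fin (d + 1)} (h : Φ.el i = Ψ.el j) : Φ.F i = Ψ.F j :=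
  congrArg Subtype.val h

theorem el_of_F {Φ Ψ : Flg 𝒯} {i j : Fin (d + 1)} (h : Φ.F i = Ψ.F j) : Φ.el i = Ψ.el j :=
  Subtype.ext h

theorem flg_ext_el {Φ Ψ : Flg 𝒯} (h : ∀ i, Φ.el i = Ψ.el i) : Φ = Ψ :=
  flg_ext fun i => el_inj (h i)

/-- the image of a flag under an automorphism -/
theorem exists_img (hN : Nice 𝒯) (e : Au 𝒯) (Φ : Flg 𝒯) : ∃ Ψ : Flg 𝒯, ∀ i, Ψ.el i = e (Φ.el i) := by
  obtain ⟨Ψ, h⟩ := hN.act e Φ
  exact ⟨Ψ, fun i => (h i).symm⟩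

/-- Two nested faces with known indices lie in a common flag with these indices. -/
theorem two_flag (hN : Nice 𝒯) {Φ Ψ : Flg 𝒯} {i j : Fin (d + 1)} (h : Φ.F i ⊆ Ψ.F j) :
    ∃ Θ : Flg 𝒯, Θ.F i = Φ.F i ∧ Θ.F j = Ψ.F j := by
  obtain ⟨Θ, hΘ⟩ := hN.full {Φ.F i, Ψ.F j} (by
    intro F hF
    rcases hF with rfl | hF
    · exact Φ.fc i
    · rw [mem_singleton_iff.mp hF]; exact Ψ.fc j) (by
    intro A hA B hB _
    simp only [mem_insert_iff, mem_singleton_iff] at hA hB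
    rcases hA with rfl | rfl <;> rcases hB with rfl | rfl
    · exact Or.inl subset_rfl
    · exact Or.inl h
    · exact Or.inr h
    · exact Or.inl subset_rfl)
  obtain ⟨i', hi'⟩ := hΘ (Φ.F i) (by simp)
  obtain ⟨j', hj'⟩ := hΘ (Ψ.F j) (by simp)
  have e1 := hN.rank _ _ _ _ hi'
  have e2 := hN.rank _ _ _ _ hj'
  subst e1 e2
  exact ⟨Θ, hi', hj'⟩

theorem idx_le (hN : Nice 𝒯) {Φ Ψ : Flg 𝒯} {i j : Fin (d + 1)} (h : Φ.F i ⊆ Ψ.F j) : i ≤ j := by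
  obtain ⟨Θ, h1, h2⟩ := two_flag hN h
  rw [← h1, ← h2] at h
  exact Θ.mono.le_iff_le.mp h

theorem eq_of_sub (hN : Nice 𝒯) {Φ Ψ : Flg 𝒯} {i : Fin (d + 1)} (h : Φ.F i ⊆ Ψ.F i) :
    Φ.F i = Ψ.F i := by
  obtain ⟨Θ, h1, h2⟩ := two_flag hN h
  rw [← h1, ← h2]

end TL.H59
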