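import Pool.Agent.Helper59.TL.KB

/-!
# TL, part KGROW: normality gives polynomial growth
-/

set_option autoImplicit false

namespace TL.H59

open Set TL MeasureTheory Metric

variable {d : ℕ} {𝒯 : Set (Set (E d))}

/-- packing of balls -/
theorem pack (𝒮 : Finset (Set (E d))) (x0 : E d) (r ρ : ℝ) (hr : 0 < r) (hρ : 0 ≤ ρ)
    (h1 : ∀ T ∈ 𝒮, ∃ a : E d, closedBall a r ⊆ T) (h2 : ∀ T ∈ 𝒮, T ⊆ closedBall x0 ρ)
    (h3 : ∀ T ∈ 𝒮, ∀ T' ∈ 𝒮, T ≠ T' → Disjoint (interior T) (interior T')) :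
    (𝒮.card : ℝ) * r ^ d ≤ ρ ^ d := by
  classical
  choose! a ha using h1
  have hsub : ∀ T ∈ 𝒮, ball (a T) r ⊆ interior T := fun T hT =>
    interior_maximal (ball_subset_closedBall.trans (ha T hT)) isOpen_ball
  have hdis : Set.PairwiseDisjoint (𝒮 : Set (Set (E d))) (fun T => ball (a T) r) := by
    intro T hT T' hT' hne
    exact (h3 T hT T' hT' hne).mono (hsub T hT) (hsub T' hT')
  have e1 := measure_biUnion_finset (μ := (volume : Measure (E d))) hdis
    (fun T _ => measurableSet_ball)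
  have e2 : volume (⋃ T ∈ 𝒮, ball (a T) r) ≤ volume (closedBall x0 ρ) := by
    apply measure_mono
    intro x hx
    simp only [mem_iUnion] at hx
    obtain ⟨T, hT, hx⟩ := hx
    exact h2 T hT (interior_subset (hsub T hT hx))
  rw [e1, Measure.addHaar_closedBall _ _ hρ] at e2
  have e3 : ∀ T ∈ 𝒮, volume (ball (a T) r) = ENNReal.ofReal (r ^ d) * volume (ball (0 : E d) 1) := by
    intro T _
    rw [Measure.addHaar_ball_of_pos _ _ hr]
    simp
  rw [Finset.sum_congr rfl e3, Finset.sum_const, nsmul_eq_mul, ← mul_assoc] at e2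
  have hfr : Module.finrank ℝ (E d) = d := by simp
  rw [hfr] at e2
  have hpos : (volume (ball (0 : E d) 1)) ≠ 0 := (measure_ball_pos _ _ one_pos).ne'
  have hfin : (volume (ball (0 : E d) 1)) ≠ ⊤ := measure_ball_lt_top.ne
  have e4 := (ENNReal.mul_le_mul_iff_left hpos hfin).mp e2
  rw [← ENNReal.ofReal_natCast, ← ENNReal.ofReal_mul (by positivity)] at e4
  exact (ENNReal.ofReal_le_ofReal_iff (by positivity)).mp e4

/-- distances of the points of the top tile of `g Φ` -/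
theorem top_dist (hN : Nice 𝒯) (hd : 2 ≤ d) {Φ : Flg 𝒯} {ρ : Fin (d + 1) → Au 𝒯}
    (hρ : TG 𝒯 Φ ρ) (R : ℝ) (hR : ∀ T ∈ 𝒯, ∃ b : E d, T ⊆ closedBall b R) (x0 : E d)
    (hx0 : x0 ∈ Φ.F (Fin.last d)) (l : List (Fin (d + 1))) :
    ∀ Ψ : Flg 𝒯, (∀ i, Ψ.el i = (l.map ρ).prod (Φ.el i)) → ∀ x ∈ Ψ.F (Fin.last d),
      dist x x0 ≤ 2 * R * (l.length + 1) := by
  have hdiam : ∀ T ∈ 𝒯, ∀ x ∈ T, ∀ y ∈ T, dist x y ≤ 2 * R := by
    intro T hT x hx y hy
    obtain ⟨b, hb⟩ := hR T hT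
    have h1 := mem_closedBall.mp (hb hx)
    have h2 := mem_closedBall'.mp (hb hy)
    linarith [dist_triangle x b y]
  induction l using List.reverseRecOn with
  | nil =>
    intro Ψ hΨ x hx
    have e1 : Ψ = Φ := flg_ext_el fun i => by rw [hΨ i]; rfl
    subst e1
    simpa using hdiam _ (hN.top Ψ) x hx x0 hx0
  | append_singleton l i ih =>
    intro Ψ hΨ x hx
    obtain ⟨Θ, hΘ⟩ := exists_img hN ((l.map ρ).prod) Φ
    obtain ⟨j, hj⟩ : ∃ j : Fin (d + 1), j ≠ i := by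
      by_cases h : i = ⟨0, by omega⟩
      · exact ⟨⟨1, by omega⟩, by rw [h]; simp⟩
      · exact ⟨⟨0, by omega⟩, Ne.symm h⟩
    have e1 : Ψ.F j = Θ.F j := by
      apply el_inj
      rw [hΨ j, hΘ j, List.map_append, List.prod_append]
      show (l.map ρ).prod (([i].map ρ).prod (Φ.el j)) = _
      simp only [List.map_cons, List.map_nil, List.prod_cons, List.prod_nil, mul_one]
      rw [hρ.fix i j hj]
    obtain ⟨z, hz⟩ := (Ψ.fc j).1
    have hz1 : z ∈ Ψ.F (Fin.last d) := Ψ.mono.monotone (Fin.le_last j) hz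
    have hz2 : z ∈ Θ.F (Fin.last d) := Θ.mono.monotone (Fin.le_last j) (e1 ▸ hz)
    have h1 := hdiam _ (hN.top Ψ) x hx z hz1
    have h2 := ih Θ hΘ z hz2
    rw [List.length_append, List.length_singleton]
    push_cast
    nlinarith [dist_triangle x z x0]

end TL.H59

open TL TL.H59 Set Metric in
theorem TL.kgrow_thm (hgen : S_KGEN) (hfin : S_KFIN) : S_KGROW := by
  classical
  intro d 𝒯 hd hN hnorm Φ ρ hρ
  obtain ⟨r, R, hr, hR, hn⟩ := hnorm
  obtain ⟨-, -, hst⟩ := ((hgen d 𝒯 hd hN).2 Φ).2 ρ hρ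
  have hf := (hfin d 𝒯 hd hN Φ ρ hρ).1 (Fin.last d)
  obtain ⟨x0, hx0⟩ := (Φ.fc (Fin.last d)).1
  have hfs : ((Subgroup.closure (ρ '' {j | j ≠ Fin.last d}) : Subgroup (Au 𝒯)) :
      Set (Au 𝒯)).Finite := Set.toFinite _
  set K := hfs.toFinset.card with hK
  refine ⟨K * ⌈(2 * R / r) ^ d⌉₊, d, fun n => ?_⟩
  have hBfin : {g : Au 𝒯 | ∃ l : List (Fin (d + 1)), l.length ≤ n ∧ (l.map ρ).prod = g}.Finite := by
    refine ((List.finite_length_le (Fin (d + 1)) n).image fun l => (l.map ρ).prod).subset ?_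
    rintro g ⟨l, hl, rfl⟩
    exact ⟨l, hl, rfl⟩
  rw [Set.ncard_eq_toFinset_card _ hBfin]
  set s := hBfin.toFinset with hs
  let f : Au 𝒯 → Set (E d) := fun g => (g (Φ.el (Fin.last d))).1
  have hfib : ∀ a ∈ s.image f, (s.filter (fun g => f g = a)).card ≤ K := by
    intro a ha
    obtain ⟨g0, -, hg0⟩ := Finset.mem_image.mp ha
    refine Finset.card_le_card_of_injOn (fun g => g0⁻¹ * g) ?_ ?_
    · intro g hg
      have hg2 : f g = a := (Finset.mem_filter.mp hg).2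
      simp only [Set.Finite.coe_toFinset]
      apply hst
      have e1 : g (Φ.el (Fin.last d)) = g0 (Φ.el (Fin.last d)) :=
        Subtype.ext (hg2.trans hg0.symm)
      show g0⁻¹ (g (Φ.el (Fin.last d))) = _
      rw [e1]
      exact g0.symm_apply_apply _
    · intro g _ g' _ hgg
      exact mul_left_cancel hgg
  have h1 := Finset.card_le_mul_card_image s K hfib
  -- the tiles
  have hTs : ∀ T ∈ s.image f, T ∈ 𝒯 ∧ T ⊆ closedBall x0 (2 * R * (n + 1)) := by
    intro T hT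
    obtain ⟨g, hg, rfl⟩ := Finset.mem_image.mp hT
    obtain ⟨l, hl, rfl⟩ := (Set.Finite.mem_toFinset _).mp hg
    obtain ⟨Ψ, hΨ⟩ := exists_img hN ((l.map ρ).prod) Φ
    have e1 : Ψ.F (Fin.last d) = f ((l.map ρ).prod) := congrArg Subtype.val (hΨ (Fin.last d))
    rw [← e1]
    refine ⟨hN.top Ψ, fun x hx => ?_⟩
    have h2 := top_dist hN hd hρ R (fun T hT => by
      obtain ⟨_, b, -, hb⟩ := hn T hT; exact ⟨b, hb⟩) x0 hx0 l Ψ hΨ x hx
    rw [mem_closedBall]
    refine h2.trans ?_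
    have : (l.length : ℝ) ≤ n := by exact_mod_cast hl
    nlinarith
  have h2 := pack (s.image f) x0 r (2 * R * (n + 1)) hr (by positivity)
    (fun T hT => by
      obtain ⟨a, _, ha, -⟩ := hn T (hTs T hT).1; exact ⟨a, ha⟩)
    (fun T hT => (hTs T hT).2)
    (fun T hT T' hT' hne => hN.lfc.disj T (hTs T hT).1 T' (hTs T' hT').1 hne)
  have h3 : ((s.image f).card : ℝ) ≤ (2 * R / r) ^ d * (n + 1) ^ d := by
    rw [← mul_pow, div_mul_eq_mul_div, div_pow, le_div_iff₀ (by positivity)]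
    exact h2
  have h4 : (s.image f).card ≤ ⌈(2 * R / r) ^ d⌉₊ * (n + 1) ^ d := by
    have : ((s.image f).card : ℝ) ≤ ((⌈(2 * R / r) ^ d⌉₊ * (n + 1) ^ d : ℕ) : ℝ) := by
      push_cast
      refine h3.trans ?_
      exact mul_le_mul_of_nonneg_right (Nat.le_ceil _) (by positivity)
    exact_mod_cast this
  calc s.card ≤ K * (s.image f).card := h1
    _ ≤ K * (⌈(2 * R / r) ^ d⌉₊ * (n + 1) ^ d) := Nat.mul_le_mul_left _ h4
    _ = K * ⌈(2 * R / r) ^ d⌉₊ * (n + 1) ^ d := by ring
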