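import Pool.Agent.Helper59.TL.KB

/-!
# TL, part KORD: orders of the products of the generators
-/

set_option autoImplicit false

namespace TL.H59

open Set TL

variable {d : ℕ} {𝒯 : Set (Set (E d))}

/-- exchange of two faces which are not consecutive -/
theorem exists_exch (Φ : Flg 𝒯) (A B : Flg 𝒯) (i j : Fin (d + 1)) (hij : (i : ℕ) + 2 ≤ j)
    (hA : ∀ k, k ≠ i → A.F k = Φ.F k) (hB : ∀ k, k ≠ j → B.F k = Φ.F k) :
    ∃ Ψ : Flg 𝒯, Ψ.F i = A.F i ∧ Ψ.F j = B.F j ∧ ∀ k, k ≠ i → k ≠ j → Ψ.F k = Φ.F k := by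
  classical
  have hne : i ≠ j := by rintro rfl; omega
  refine ⟨⟨fun k => if k = i then A.F i else B.F k, ?_, ?_⟩, ?_, ?_, ?_⟩
  · intro k

    split_ifs
    · exact A.fc i
    · exact B.fc k
  · rw [Fin.strictMono_iff_lt_succ]
    intro k

    by_cases h1 : k.castSucc = i
    · have h2 : k.succ ≠ i := by
        rw [← h1]; exact (Fin.castSucc_lt_succ).ne'
      have h3 : k.succ ≠ j := by
        intro h; rw [← h1, ← h] at hij; simp at hij
      rw [if_pos h1, if_neg h2, hB _ h3, ← hA _ h2, ← h1]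
      exact A.mono Fin.castSucc_lt_succ
    · by_cases h2 : k.succ = i
      · have h3 : k.castSucc ≠ j := by
          intro h
          rw [← h, ← h2] at hij; simp at hij; omega
        rw [if_neg h1, if_pos h2, hB _ h3, ← hA _ h1, ← h2]
        exact A.mono Fin.castSucc_lt_succ
      · rw [if_neg h1, if_neg h2]
        exact B.mono Fin.castSucc_lt_succ
  · simp
  · simp [hne.symm]
  · intro k h1 h2
    simp only [if_neg h1]
    exact hB k h2

end TL.H59

open TL TL.H59 Set in
theorem TL.kord_thm (hfree : S_KFREE) (hgen : S_KGEN) (hfin : S_KFIN) : S_KORD := by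
  intro d 𝒯 hd hN Φ ρ hρ
  obtain ⟨-, hΦ⟩ := hgen d 𝒯 hd hN
  obtain ⟨-, hsq, -⟩ := (hΦ Φ).2 ρ hρ
  have hne1 : ∀ i j : Fin (d + 1), i ≠ j → ρ i * ρ j ≠ 1 := by
    intro i j hij h
    have h1 : ρ i = ρ j := by
      have := hsq j
      calc ρ i = ρ i * (ρ j * ρ j) := by rw [this, mul_one]
        _ = ρ j := by rw [← mul_assoc, h, one_mul]
    apply hρ.ne i
    rw [h1]
    exact hρ.fix j i hij
  -- the neighbours of `Φ`
  have hnb : ∀ i : Fin (d + 1), ∃ A : Flg 𝒯, (∀ k, A.el k = ρ i (Φ.el k)) ∧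
      (∀ k, k ≠ i → A.F k = Φ.F k) ∧ A.F i ≠ Φ.F i := by
    intro i
    obtain ⟨A, hA⟩ := exists_img hN (ρ i) Φ
    refine ⟨A, hA, fun k hk => ?_, fun h => ?_⟩
    · have := hA k
      rw [hρ.fix i k hk] at this
      exact el_inj this
    · have := hA i
      apply hρ.ne i
      rw [← this]
      exact el_of_F h
  have hcomm2 : ∀ i j : Fin (d + 1), i ≠ j → ρ i * ρ j = ρ j * ρ i →
      orderOf (ρ i * ρ j) = 2 := by
    intro i j hij h
    refine orderOf_eq_prime ?_ (hne1 i j hij)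
    calc (ρ i * ρ j) ^ 2 = ρ i * (ρ j * ρ i) * ρ j := by rw [pow_two]; group
      _ = ρ i * (ρ i * ρ j) * ρ j := by rw [h]
      _ = (ρ i * ρ i) * (ρ j * ρ j) := by group
      _ = 1 := by rw [hsq, hsq, one_mul]
  refine ⟨fun i j hij => ?_, fun i j hij => ?_⟩
  · have hne : i ≠ j := by rintro rfl; omega
    apply hcomm2 i j hne
    obtain ⟨A, hA1, hA2, hA3⟩ := hnb i
    obtain ⟨B, hB1, hB2, hB3⟩ := hnb j
    obtain ⟨Ψ, hΨ1, hΨ2, hΨ3⟩ := exists_exch Φ A B i j hij hA2 hB2
    -- `ρ i ρ j Φ = Ψ`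
    have key : ∀ (a b : Fin (d + 1)) (A B : Flg 𝒯), a ≠ b → (∀ k, A.el k = ρ a (Φ.el k)) →
        (∀ k, k ≠ a → A.F k = Φ.F k) →
        (∀ k, B.el k = ρ b (Φ.el k)) → (∀ k, k ≠ b → B.F k = Φ.F k) → B.F b ≠ Φ.F b →
        Ψ.F a = A.F a → Ψ.F b = B.F b → (∀ k, k ≠ a → k ≠ b → Ψ.F k = Φ.F k) →
        ∀ k, (ρ a * ρ b) (Φ.el k) = Ψ.el k := by
      intro a b A B hab hA1 hA2 hB1 hB2 hB3 h1 h2 h3 k
      obtain ⟨D, hD⟩ := exists_img hN (ρ a * ρ b) Φ
      have e1 : FAdj b A D := by
        constructor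
        · intro h
          have e2 := hD b
          rw [← h, hA1 b] at e2
          have e3 : Φ.el b = ρ b (Φ.el b) := (ρ a).injective e2
          exact hρ.ne b e3.symm
        · intro l hl
          apply el_inj
          rw [hD l, hA1 l]
          show ρ a (Φ.el l) = ρ a (ρ b (Φ.el l))
          rw [hρ.fix b l hl]
      have e2 : FAdj b A Ψ := by
        constructor
        · intro h
          have e3 := h2
          rw [← h, hA2 b hab.symm] at e3
          exact hB3 e3.symm
        · intro l hl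
          by_cases hla : l = a
          · rw [hla, h1]
          · rw [hA2 l hla, h3 l hla hl]
      have e3 := (hN.wall A b).unique e1 e2
      rw [← e3, hD k]
    have k1 := key i j A B hne hA1 hA2 hB1 hB2 hB3 hΨ1 hΨ2 hΨ3
    have k2 := key j i B A hne.symm hB1 hB2 hA1 hA2 hA3 hΨ2 hΨ1 (fun k h1 h2 => hΨ3 k h2 h1)
    have k3 : (ρ i * ρ j)⁻¹ * (ρ j * ρ i) = 1 := by
      apply hfree d 𝒯 hd hN Φ
      intro k
      show (ρ i * ρ j)⁻¹ ((ρ j * ρ i) (Φ.el k)) = Φ.el k
      rw [k2 k, ← k1 k]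
      exact (ρ i * ρ j).symm_apply_apply _
    exact (inv_mul_eq_one.mp k3)
  · have hne : i ≠ j := by rintro rfl; omega
    have hlt : i < j := by rw [Fin.lt_def]; omega
    -- finite order
    have hpos : 0 < orderOf (ρ i * ρ j) := by
      obtain ⟨k, hki, hkj⟩ : ∃ k : Fin (d + 1), k ≠ i ∧ k ≠ j := by
        by_contra hcon
        push Not at hcon
        have h3 : ∀ k : Fin (d + 1), k = i ∨ k = j := fun k => by
          by_cases h : k = i
          · exact Or.inl h
          · exact Or.inr (hcon k h)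
        have c0 := h3 ⟨0, by omega⟩
        have c1 := h3 ⟨1, by omega⟩
        have c2 := h3 ⟨2, by omega⟩
        simp only [Fin.ext_iff] at c0 c1 c2
        omega
      have hf := (hfin d 𝒯 hd hN Φ ρ hρ).1 k
      have hm : ρ i * ρ j ∈ Subgroup.closure (ρ '' {j | j ≠ k}) :=
        Subgroup.mul_mem _ (Subgroup.subset_closure ⟨i, hki.symm, rfl⟩)
          (Subgroup.subset_closure ⟨j, hkj.symm, rfl⟩)
      have h1 := orderOf_pos (⟨ρ i * ρ j, hm⟩ : Subgroup.closure (ρ '' {j | j ≠ k}))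
      rwa [Subgroup.orderOf_mk] at h1
    have h1 : orderOf (ρ i * ρ j) ≠ 1 := by
      rw [Ne, orderOf_eq_one_iff]; exact hne1 i j hne
    have h2 : orderOf (ρ i * ρ j) ≠ 2 := by
      intro h
      have hp := pow_orderOf_eq_one (ρ i * ρ j)
      rw [h] at hp
      have hcomm : ρ i * ρ j = ρ j * ρ i := by
        have e1 : (ρ i * ρ j) * (ρ i * ρ j) = 1 := by rw [← pow_two]; exact hp
        have e2 := eq_inv_of_mul_eq_one_left e1
        have e3 : (ρ i)⁻¹ = ρ i := inv_eq_of_mul_eq_one_left (hsq i)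
        have e4 : (ρ j)⁻¹ = ρ j := inv_eq_of_mul_eq_one_left (hsq j)
        rw [e2, mul_inv_rev, e3, e4]
      obtain ⟨A, hA1, hA2, hA3⟩ := hnb i
      obtain ⟨B, hB1, hB2, hB3⟩ := hnb j
      obtain ⟨D, hD⟩ := exists_img hN (ρ i * ρ j) Φ
      have hDi : D.F i = A.F i := by
        apply el_inj
        rw [hD i, hA1 i]
        show ρ i (ρ j (Φ.el i)) = _
        rw [hρ.fix j i hne]
      have hDj : D.F j = B.F j := by
        apply el_inj
        rw [hD j, hB1 j, hcomm]
        show ρ j (ρ i (Φ.el j)) = _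
        rw [hρ.fix i j hne.symm]
      -- A := Φ.F i, A' := A.F i, B := Φ.F j, B' := B.F j
      have s1 : Φ.F i ⊆ Φ.F j := (Φ.mono hlt).le
      have s2 : Φ.F i ⊆ B.F j := by
        rw [← hB2 i hne]; exact (B.mono hlt).le
      have s3 : A.F i ⊆ Φ.F j := by
        rw [← hA2 j hne.symm]; exact (A.mono hlt).le
      have s4 : A.F i ⊆ B.F j := by
        rw [← hDi, ← hDj]; exact (D.mono hlt).le
      have hG : Fc 𝒯 (Φ.F j ∩ B.F j) := hN.inter _ _ (Φ.fc j) (B.fc j)
        ((Φ.fc i).1.mono (subset_inter s1 s2))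
      obtain ⟨Θ, hΘ⟩ := hN.full {Φ.F i, Φ.F j ∩ B.F j, Φ.F j} (by
        intro F hF
        simp only [mem_insert_iff, mem_singleton_iff] at hF
        rcases hF with rfl | rfl | rfl
        · exact Φ.fc i
        · exact hG
        · exact Φ.fc j) (by
        intro U hU V hV _
        simp only [mem_insert_iff, mem_singleton_iff] at hU hV
        rcases hU with rfl | rfl | rfl <;> rcases hV with rfl | rfl | rfl
        · exact Or.inl subset_rfl
        · exact Or.inl (subset_inter s1 s2)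
        · exact Or.inl s1
        · exact Or.inr (subset_inter s1 s2)
        · exact Or.inl subset_rfl
        · exact Or.inl inter_subset_left
        · exact Or.inr s1
        · exact Or.inr inter_subset_left
        · exact Or.inl subset_rfl)
      obtain ⟨a, ha⟩ := hΘ (Φ.F i) (by simp)
      obtain ⟨b, hb⟩ := hΘ (Φ.F j ∩ B.F j) (by simp)
      obtain ⟨c, hc⟩ := hΘ (Φ.F j) (by simp)
      have ea := hN.rank _ _ _ _ ha
      have ec := hN.rank _ _ _ _ hc
      subst ea ec
      -- Θ.F b = Φ.F j ∩ B.F j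
      have b1 : a ≤ b := by
        rw [← Θ.mono.le_iff_le, ha, hb]; exact subset_inter s1 s2
      have b2 : b ≤ c := by
        rw [← Θ.mono.le_iff_le, hb, hc]; exact inter_subset_left
      have b3 : b = a ∨ b = c := by
        rw [Fin.le_def] at b1 b2
        rcases Nat.lt_or_ge (b : ℕ) (c : ℕ) with h | h
        · left; ext; omega
        · right; ext; omega
      rcases b3 with rfl | rfl
      · -- the intersection is `Φ.F a`, so `A.F a ⊆ Φ.F a`
        have e1 : A.F b ⊆ Φ.F b := by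
          rw [← ha, hb]; exact subset_inter s3 s4
        exact hA3 (eq_of_sub hN e1)
      · have e1 : Φ.F b ⊆ B.F b := by
          rw [← hc, hb]; exact inter_subset_right
        exact hB3 (eq_of_sub hN e1).symm
    omega
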