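import Pool.Agent.Helper59.TL.KB

/-!
# TL, part KREC: the face poset is determined by the group
-/

set_option autoImplicit false

namespace TL.H59

open Set TL

variable {d : ℕ} {𝒯 𝒯' : Set (Set (E d))}

theorem fc_ne_univ (hd : 1 ≤ d) (hL : LFC 𝒯) {F : Set (E d)} (hF : ∃ T ∈ 𝒯, IsFace T F) :
    F ≠ univ := by
  rintro rfl
  obtain ⟨T, hT, hf⟩ := hF
  obtain ⟨⟨s, hs⟩, -⟩ := hL.poly T hT
  have h1 : (univ : Set (E d)) ⊆ T := hf.1.subset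
  have h2 : Bornology.IsBounded T := by
    rw [hs]
    exact (isBounded_convexHull).mpr s.finite_toSet.isBounded
  haveI : Nonempty (Fin d) := ⟨⟨0, hd⟩⟩
  exact NormedSpace.unbounded_univ ℝ (E d) (h2.subset h1)

/-- the empty face -/
def eb (𝒯 : Set (Set (E d))) (h : 𝒯.Nonempty) : FP 𝒯 :=
  ⟨∅, Or.inr ⟨h.some, h.some_mem, ⟨⟨empty_subset _, by intro _ _ _ _ _ h; exact h.elim⟩,
    convex_empty⟩⟩⟩

/-- the greatest element -/
def et (𝒯 : Set (Set (E d))) : FP 𝒯 := ⟨univ, Or.inl rfl⟩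

theorem eb_le {h : 𝒯.Nonempty} (x : FP 𝒯) : eb 𝒯 h ≤ x := empty_subset x.1

theorem le_et (x : FP 𝒯) : x ≤ et 𝒯 := subset_univ x.1

/-- the correspondence -/
def Rel (Φ : Flg 𝒯) (Φ' : Flg 𝒯') (θ : Au 𝒯 ≃* Au 𝒯') (x : FP 𝒯) (y : FP 𝒯') : Prop :=
  (x.1 = ∅ ∧ y.1 = ∅) ∨ (x.1 = univ ∧ y.1 = univ) ∨
    ∃ (i : Fin (d + 1)) (g : Au 𝒯), x = g (Φ.el i) ∧ y = θ g (Φ'.el i)

theorem Rel.symm {Φ : Flg 𝒯} {Φ' : Flg 𝒯'} {θ : Au 𝒯 ≃* Au 𝒯'} {x : FP 𝒯} {y : FP 𝒯'}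
    (h : Rel Φ Φ' θ x y) : Rel Φ' Φ θ.symm y x := by
  rcases h with ⟨h1, h2⟩ | ⟨h1, h2⟩ | ⟨i, g, h1, h2⟩
  · exact Or.inl ⟨h2, h1⟩
  · exact Or.inr (Or.inl ⟨h2, h1⟩)
  · exact Or.inr (Or.inr ⟨i, θ g, h2, by simpa using h1⟩)

theorem rel_total (hN : Nice 𝒯) (hT : 𝒯.Nonempty) (hT' : 𝒯'.Nonempty) (Φ : Flg 𝒯)
    (Φ' : Flg 𝒯') (θ : Au 𝒯 ≃* Au 𝒯') (x : FP 𝒯) : ∃ y, Rel Φ Φ' θ x y := by
  by_cases h0 : x.1 = ∅
  · exact ⟨eb 𝒯' hT', Or.inl ⟨h0, rfl⟩⟩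
  by_cases h1 : x.1 = univ
  · exact ⟨et 𝒯', Or.inr (Or.inl ⟨h1, rfl⟩)⟩
  have hx : Fc 𝒯 x.1 := ⟨nonempty_iff_ne_empty.mpr h0, x.2.resolve_left h1⟩
  obtain ⟨Ψ, hΨ⟩ := hN.full {x.1} (by
    intro F hF; rw [mem_singleton_iff.mp hF]; exact hx) (by
    intro A hA B hB hAB
    exact absurd ((mem_singleton_iff.mp hA).trans (mem_singleton_iff.mp hB).symm) hAB)
  obtain ⟨i, hi⟩ := hΨ x.1 (mem_singleton _)
  obtain ⟨g, hg⟩ := hN.trans Φ Ψ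
  refine ⟨θ g (Φ'.el i), Or.inr (Or.inr ⟨i, g, ?_, rfl⟩)⟩
  rw [hg i]
  exact Subtype.ext hi.symm

/-- the main lemma -/
theorem rel_mono (hd : 2 ≤ d) (hN : Nice 𝒯) (hN' : Nice 𝒯') (hT : 𝒯.Nonempty)
    {Φ : Flg 𝒯} {Φ' : Flg 𝒯'} {ρ : Fin (d + 1) → Au 𝒯} {ρ' : Fin (d + 1) → Au 𝒯'}
    (hst : ∀ (i : Fin (d + 1)) (g : Au 𝒯), g (Φ.el i) = Φ.el i →
      g ∈ Subgroup.closure (ρ '' {j | j ≠ i}))
    (hρ' : TG 𝒯' Φ' ρ') {θ : Au 𝒯 ≃* Au 𝒯'} (hθ : ∀ i, θ (ρ i) = ρ' i)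
    {x x' : FP 𝒯} {y y' : FP 𝒯'} (h : Rel Φ Φ' θ x y) (h' : Rel Φ Φ' θ x' y') (hle : x ≤ x') :
    y ≤ y' := by
  have hle1 : x.1 ⊆ x'.1 := hle
  -- elements of flags are neither empty nor everything
  have hel : ∀ (g : Au 𝒯) (i : Fin (d + 1)), ∃ Ψ : Flg 𝒯, ∀ i, Ψ.el i = g (Φ.el i) :=
    fun g _ => exists_img hN g Φ
  have hθstab : ∀ (i : Fin (d + 1)) (g : Au 𝒯), g (Φ.el i) = Φ.el i →
      θ g (Φ'.el i) = Φ'.el i := by
    intro i g hg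
    have h1 := hst i g hg
    have h2 : ∀ k ∈ Subgroup.closure (ρ '' {j | j ≠ i}), θ k (Φ'.el i) = Φ'.el i := by
      intro k hk
      induction hk using Subgroup.closure_induction with
      | mem z hz =>
        obtain ⟨j, hj, rfl⟩ := hz
        rw [hθ j]
        exact hρ'.fix j i (Ne.symm hj)
      | one => rw [map_one]; rfl
      | mul a b _ _ ha hb =>
        rw [map_mul]
        show θ a (θ b (Φ'.el i)) = _
        rw [hb, ha]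
      | inv a _ ha =>
        rw [map_inv]
        conv_lhs => rw [← ha]
        exact (θ a).symm_apply_apply _
    exact h2 g h1
  rcases h with ⟨h1, h2⟩ | ⟨h1, h2⟩ | ⟨i, g, h1, h2⟩
  · show y.1 ⊆ y'.1
    rw [h2]; exact empty_subset _
  · have h3 : x'.1 = univ := by
      rw [h1] at hle1; exact univ_subset_iff.mp hle1
    rcases h' with ⟨h1', h2'⟩ | ⟨h1', h2'⟩ | ⟨j, k, h1', h2'⟩
    · exfalso
      rw [h3] at h1'
      exact empty_ne_univ h1'.symm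
    · show y.1 ⊆ y'.1
      rw [h2']; exact subset_univ _
    · exfalso
      obtain ⟨Ψ, hΨ⟩ := hel k j
      have e1 := hΨ j
      rw [← h1'] at e1
      have e2 : Ψ.F j = x'.1 := congrArg Subtype.val e1
      exact fc_ne_univ (by omega) hN.lfc (Ψ.fc j).2 (e2.trans h3)
  · obtain ⟨Ψ, hΨ⟩ := hel g i
    have e1 : Ψ.F i = x.1 := by
      have := hΨ i
      rw [← h1] at this
      exact congrArg Subtype.val this
    rcases h' with ⟨h1', h2'⟩ | ⟨h1', h2'⟩ | ⟨j, k, h1', h2'⟩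
    · exfalso
      rw [h1'] at hle1
      have := (Ψ.fc i).1
      rw [e1, subset_empty_iff.mp hle1] at this
      exact not_nonempty_empty this
    · show y.1 ⊆ y'.1
      rw [h2']; exact subset_univ _
    · obtain ⟨Ψ', hΨ'⟩ := hel k j
      have e1' : Ψ'.F j = x'.1 := by
        have := hΨ' j
        rw [← h1'] at this
        exact congrArg Subtype.val this
      rw [← e1, ← e1'] at hle1
      obtain ⟨Θ, t1, t2⟩ := two_flag hN hle1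
      obtain ⟨m, hm⟩ := hN.trans Φ Θ
      have a1 : (g⁻¹ * m) (Φ.el i) = Φ.el i := by
        show g⁻¹ (m (Φ.el i)) = Φ.el i
        rw [hm i, show Θ.el i = Ψ.el i from el_of_F t1, hΨ i]
        exact g.symm_apply_apply _
      have a2 : (k⁻¹ * m) (Φ.el j) = Φ.el j := by
        show k⁻¹ (m (Φ.el j)) = Φ.el j
        rw [hm j, show Θ.el j = Ψ'.el j from el_of_F t2, hΨ' j]
        exact k.symm_apply_apply _
      have b1 : y = θ m (Φ'.el i) := by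
        have := hθstab i _ a1
        rw [map_mul, map_inv] at this
        have e : θ g ((θ g)⁻¹ (θ m (Φ'.el i))) = θ g (Φ'.el i) := congrArg (θ g) this
        rw [h2, ← e]
        exact (θ g).apply_symm_apply _
      have b2 : y' = θ m (Φ'.el j) := by
        have := hθstab j _ a2
        rw [map_mul, map_inv] at this
        have e : θ k ((θ k)⁻¹ (θ m (Φ'.el j))) = θ k (Φ'.el j) := congrArg (θ k) this
        rw [h2', ← e]
        exact (θ k).apply_symm_apply _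
      rw [b1, b2]
      apply (θ m).monotone
      exact Φ'.mono.monotone (idx_le hN hle1)

end TL.H59

open TL TL.H59 Set in
theorem TL.krec_thm (hgen : S_KGEN) : S_KREC := by
  intro d 𝒯 𝒯' hd hN hN' Φ Φ' ρ ρ' hρ hρ' θ hθ
  obtain ⟨-, hst⟩ := ((hgen d 𝒯 hd hN).2 Φ).2 ρ hρ |>.2
  obtain ⟨-, hst'⟩ := ((hgen d 𝒯' hd hN').2 Φ').2 ρ' hρ' |>.2
  have hT : 𝒯.Nonempty := ⟨_, hN.top Φ⟩
  have hT' : 𝒯'.Nonempty := ⟨_, hN'.top Φ'⟩
  have hθ' : ∀ i, θ.symm (ρ' i) = ρ i := fun i => by rw [← hθ i]; exact θ.symm_apply_apply _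
  have h1 := rel_total hN hT hT' Φ Φ' θ
  have h2 : ∀ y, ∃ x, Rel Φ Φ' θ x y := fun y => by
    obtain ⟨x, hx⟩ := rel_total hN' hT' hT Φ' Φ θ.symm y
    exact ⟨x, by simpa using hx.symm⟩
  choose f hf using h1
  choose g hg using h2
  have hm : ∀ {x x' y y'}, Rel Φ Φ' θ x y → Rel Φ Φ' θ x' y' → (x ≤ x' ↔ y ≤ y') := by
    intro x x' y y' h h'
    constructor
    · exact rel_mono hd hN hN' hT hst hρ' hθ h h'
    · exact rel_mono hd hN' hN hT' hst' hρ hθ' h.symm h'.symm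
  refine ⟨⟨⟨f, g, ?_, ?_⟩, ?_⟩⟩
  · intro x
    exact le_antisymm ((hm (hg (f x)) (hf x)).mpr le_rfl) ((hm (hf x) (hg (f x))).mpr le_rfl)
  · intro y
    exact le_antisymm ((hm (hf (g y)) (hg y)).mp le_rfl) ((hm (hg y) (hf (g y))).mp le_rfl)
  · intro x x'
    exact (hm (hf x) (hf x')).symm
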